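import Pool.Agent.H.MP_b28609_co.V2.LowD

/-!
# MP_b28609_co: membership by search trees
-/

set_option autoImplicit false

namespace PatDom.V3

/-- Search trees of states. -/
inductive Tr : Type
  | nil : Tr
  | node (k : ℕ) (s : St) (l r : Tr) : Tr

/-- The states of a tree. -/
def Tr.toList : Tr → List St
  | .nil => []
  | .node _ s l r => s :: (l.toList ++ r.toList)

/-- Key of a state. -/
def key (s : St) : ℕ :=
  s.y + 64 * (s.x + 64 * (s.C + 256 * (s.E + 256 * (s.L + 256 * (s.R + 256 * (s.B + 256 * s.A))))))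

/-- Membership test. -/
def memT (k : ℕ) (s : St) : Tr → Bool
  | .nil => false
  | .node k' t l r =>
    match Nat.beq k k' with
    | true => St.eqb s t
    | false =>
      match Nat.ble k k' with
      | true => memT k s l
      | false => memT k s r

theorem memT_sound (k : ℕ) (s : St) (T : Tr) (h : memT k s T = true) : s ∈ T.toList := by
  induction T with
  | nil => exact absurd h (by simp [memT])
  | node k' t l r ihl ihr =>
    rw [memT] at h
    rw [Tr.toList]
    cases h1 : Nat.beq k k' with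
    | true =>
      rw [h1] at h
      simp only at h
      have h2 : memb s [t] = true := by
        unfold memb
        simpa using h
      rw [memb_iff] at h2
      rw [List.mem_singleton.1 h2]
      exact List.mem_cons_self
    | false =>
      rw [h1] at h
      simp only at h
      cases h2 : Nat.ble k k' with
      | true =>
        rw [h2] at h
        exact List.mem_cons_of_mem _ (List.mem_append_left _ (ihl h))
      | false =>
        rw [h2] at h
        exact List.mem_cons_of_mem _ (List.mem_append_right _ (ihr h))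

/-- `f` holds for all states of a tree. -/
def allT (f : St → Bool) : Tr → Bool
  | .nil => true
  | .node _ s l r => f s && (allT f l && allT f r)

theorem allT_sound (f : St → Bool) (T : Tr) (h : allT f T = true) : ∀ s ∈ T.toList, f s = true := by
  induction T with
  | nil => intro s hs; exact absurd hs (by simp [Tr.toList])
  | node k t l r ihl ihr =>
    rw [allT, Bool.and_eq_true, Bool.and_eq_true] at h
    intro s hs
    rw [Tr.toList] at hs
    rcases List.mem_cons.1 hs with h1 | h1
    · exact h1 ▸ h.1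
    · rcases List.mem_append.1 h1 with h2 | h2
      · exact ihl h.2.1 s h2
      · exact ihr h.2.2 s h2

theorem allSub_mono (c : ℕ) (f g : ℕ → Bool) (hfg : ∀ U, f U = true → g U = true) :
    ∀ k acc, V2.allSub k c acc f = true → V2.allSub k c acc g = true := by
  intro k
  induction k with
  | zero =>
    intro acc h
    exact hfg acc h
  | succ k ih =>
    intro acc h
    have h' : (V2.allSub k c acc f && (!(V2.bitB c k) || V2.allSub k c (acc ||| 2 ^ k) f)) = true := h
    have g' : (V2.allSub k c acc g && (!(V2.bitB c k) || V2.allSub k c (acc ||| 2 ^ k) g)) = true := by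
      rw [Bool.and_eq_true] at h' ⊢
      refine ⟨ih acc h'.1, ?_⟩
      have h2 := h'.2
      rw [Bool.or_eq_true] at h2 ⊢
      rcases h2 with h2 | h2
      · exact Or.inl h2
      · exact Or.inr (ih _ h2)
    exact g'

/-- Check of the successors of a state. -/
def stepT (P : Par) (T : Tr) (s : St) : Bool :=
  V2.allSub P.m s.C ((2 ^ P.m - 1) ^^^ s.C) fun X =>
    !(Nat.beq (s.L &&& X) s.L &&
        Nat.ble (P.q * pop P.m X + V2.pot P X (s.A ||| nbr P.m X))
          (s.x + V2.pot P s.A s.C + P.p)) ||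
    V2.allSub P.m s.E ((2 ^ P.m - 1) ^^^ s.E) fun Y =>
      !(Nat.beq (s.R &&& Y) s.R &&
          Nat.ble (P.q * pop P.m Y + V2.pot P Y (s.B ||| nbr P.m Y))
            (s.y + V2.pot P s.B s.E + P.p)) ||
      V2.allSub P.m ((X ^^^ s.L) &&& ((Y ^^^ s.R) >>> 1)) 0 fun U =>
        V2.allSub P.m ((Y ^^^ s.R ^^^ (U <<< 1)) &&& ((X ^^^ s.L ^^^ U) >>> 1)) 0 fun W =>
          memT (key ⟨X, Y, X ^^^ s.L ^^^ U ^^^ (W <<< 1), Y ^^^ s.R ^^^ (U <<< 1) ^^^ W,
            s.A ||| nbr P.m X, s.B ||| nbr P.m Y,
            s.x + V2.pot P s.A s.C + P.p - (P.q * pop P.m X + V2.pot P X (s.A ||| nbr P.m X)),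
            s.y + V2.pot P s.B s.E + P.p - (P.q * pop P.m Y + V2.pot P Y (s.B ||| nbr P.m Y))⟩)
            ⟨X, Y, X ^^^ s.L ^^^ U ^^^ (W <<< 1), Y ^^^ s.R ^^^ (U <<< 1) ^^^ W,
            s.A ||| nbr P.m X, s.B ||| nbr P.m Y,
            s.x + V2.pot P s.A s.C + P.p - (P.q * pop P.m X + V2.pot P X (s.A ||| nbr P.m X)),
            s.y + V2.pot P s.B s.E + P.p - (P.q * pop P.m Y + V2.pot P Y (s.B ||| nbr P.m Y))⟩ T

theorem stepT_sound (P : Par) (T : Tr) (s : St) (h : stepT P T s = true) :
    V2.stepOK P T.toList s = true := by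
  unfold stepT at h
  unfold V2.stepOK
  refine allSub_mono _ _ _ ?_ _ _ h
  intro X hX
  rw [Bool.or_eq_true] at hX ⊢
  rcases hX with hX | hX
  · exact Or.inl hX
  right
  refine allSub_mono _ _ _ ?_ _ _ hX
  intro Y hY
  rw [Bool.or_eq_true] at hY ⊢
  rcases hY with hY | hY
  · exact Or.inl hY
  right
  refine allSub_mono _ _ _ ?_ _ _ hY
  intro U hU
  refine allSub_mono _ _ _ ?_ _ _ hU
  intro W hW
  rw [memb_iff]
  exact memT_sound _ _ _ hW

/-- Lower bound for all `n` when the last tree is empty. -/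
theorem low_tree (P : Par) (hpot : V2.PotOK P) (vmax x0 N : ℕ) (L : ℕ → Tr) (V : ℕ → ℕ)
    (hx0 : x0 + V2.pot P 0 (2 ^ P.m - 1) = vmax + P.K) (h0 : L 0 = .node 0 (st0 P x0) .nil .nil)
    (hc : ∀ j < N, allT (stepT P (L (j + 1))) (L j) = true)
    (hf : ∀ j ≤ N, allT (V2.termOK P vmax (V j)) (L j) = true ∧ V j ≤ vmax + 1)
    (hL : ∀ j, N ≤ j → L j = .nil) (hV : ∀ j, N < j → V j = vmax + 1) (n : ℕ)
    (D : Finset (Fin P.m × Fin n)) (hD : Patrol (grid P.m n) D) :
    P.p * n + V n ≤ P.q * D.card := by
  have hstep : ∀ j < n, ∀ s ∈ (L j).toList, V2.stepOK P (L (j + 1)).toList s = true := by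
    intro j hj s hs
    by_cases hj' : j < N
    · exact stepT_sound P _ s (allT_sound _ _ (hc j hj') s hs)
    · rw [hL j (by omega)] at hs
      exact absurd hs (by simp [Tr.toList])
  have hmem : (⟨0, 0, 0, 0, 2 ^ P.m - 1, 2 ^ P.m - 1, x0, x0⟩ : St) ∈ (L 0).toList := by
    rw [h0]
    exact List.mem_cons_self
  by_cases hn : n ≤ N
  · have hfn := hf n hn
    refine V2.low_sound P hpot n D hD vmax x0 (V n) hx0 (fun j => (L j).toList) hmem hstep hfn.2 ?_
    intro s hs
    exact allT_sound _ _ hfn.1 s hs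
  · rw [hV n (by omega)]
    refine V2.low_sound P hpot n D hD vmax x0 _ hx0 (fun j => (L j).toList) hmem hstep le_rfl ?_
    intro s hs
    simp only [hL n (by omega)] at hs
    exact absurd hs (by simp [Tr.toList])

end PatDom.V3
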